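import Mathlib
import Pool.Agent.W34.Mix.Main

/-!
# The invariant measure of an ergodic cellular automaton has a trivial tail (K-property)
-/

set_option autoImplicit false
set_option linter.unusedSectionVars false

open MeasureTheory ProbabilityTheory Filter Topology
open scoped ENNReal Pointwise

namespace Pool.Agent.W699.PK

open Pool.Agent.H443R3 Pool.Agent.W34

variable {d : ℕ} {S : Type}

/-- The σ-algebra generated by the coordinates `x_j`, `‖j - k‖ > R`. -/
@[reducible] def outer [MeasurableSpace S] (k : Site d) (R : ℝ) : MeasurableSpace (Config d S) :=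
  ⨆ (j : Site d) (_ : R < ‖j - k‖), MeasurableSpace.comap (fun x : Config d S => x j) inferInstance

variable [Finite S] [TopologicalSpace S] [DiscreteTopology S] [MeasurableSpace S]
  [MeasurableSingletonClass S]

/-- the events determined by finitely many coordinates at distance more than `R` from `k` -/
def fin (S : Type) (k : Site d) (R : ℝ) : Set (Set (Config d S)) :=
  {F | ∃ B : Finset (Site d), (∀ b ∈ B, R < ‖b - k‖) ∧ DependsOn (fun x => x ∈ F) (B : Set (Site d))}

theorem fin_meas {k : Site d} {R : ℝ} {F : Set (Config d S)} (hF : F ∈ fin S k R) :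
    MeasurableSet F := by
  obtain ⟨B, -, hB⟩ := hF
  exact PCA.measurableSet_of_dependsOn hB

theorem fin_pi (k : Site d) (R : ℝ) : IsPiSystem (fin S k R) := by
  rintro F ⟨B, hB, hF⟩ G ⟨C, hC, hG⟩ -
  refine ⟨B ∪ C, ?_, ?_⟩
  · intro b hb
    rcases Finset.mem_union.1 hb with h | h
    · exact hB b h
    · exact hC b h
  · intro x y hxy
    have h1 := hF (x := x) (y := y) (fun i hi => hxy i (by simp at hi ⊢; exact Or.inl hi))
    have h2 := hG (x := x) (y := y) (fun i hi => hxy i (by simp at hi ⊢; exact Or.inr hi))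
    simp only at h1 h2
    simp only [Set.mem_inter_iff, h1, h2]

theorem outer_le (k : Site d) (R : ℝ) :
    outer k R ≤ MeasurableSpace.generateFrom (fin S k R) := by
  unfold outer
  refine iSup_le fun j => iSup_le fun hj => ?_
  rintro _ ⟨T, hT, rfl⟩
  apply MeasurableSpace.measurableSet_generateFrom
  refine ⟨{j}, by simpa using hj, ?_⟩
  intro x y hxy
  have := hxy j (by simp)
  simp only [Set.mem_preimage, this]

theorem outer_le_pi (k : Site d) (R : ℝ) :
    outer (S := S) k R ≤ MeasurableSpace.pi := by
  unfold outer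
  exact iSup_le fun j => iSup_le fun _ => (measurable_pi_apply j).comap_le

/-- the transition probabilities after `t` steps -/
noncomputable def K (Φ : PCA d S) (t : ℕ) (x : Config d S) : Measure (Config d S) :=
  Φ.evolve^[t] (Measure.dirac x)

instance (Φ : PCA d S) (t : ℕ) (x : Config d S) : IsProbabilityMeasure (K Φ t x) :=
  Φ.isProbabilityMeasure_iterate _ t

theorem measurable_K (Φ : PCA d S) (t : ℕ) : Measurable (K Φ t) := by
  induction t with
  | zero => exact Measure.measurable_dirac
  | succ t ih =>
    have e : K Φ (t + 1) = (fun μ => μ.bind Φ.step) ∘ K Φ t := by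
      funext x
      unfold K
      rw [Function.iterate_succ_apply']
      rfl
    rw [e]
    exact (Measure.measurable_bind' Φ.measurable_step).comp ih

theorem evolve_eq_bind (Φ : PCA d S) (π : Measure (Config d S)) (t : ℕ) :
    Φ.evolve^[t] π = π.bind (K Φ t) := by
  induction t with
  | zero =>
    show π = π.bind Measure.dirac
    rw [Measure.bind_dirac]
  | succ t ih =>
    rw [Function.iterate_succ_apply', ih]
    show (π.bind (K Φ t)).bind Φ.step = _
    rw [Measure.bind_bind (measurable_K Φ t).aemeasurable Φ.measurable_step.aemeasurable]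
    congr 1
    funext x
    unfold K
    rw [Function.iterate_succ_apply']
    rfl

/-- conditional independence given the configuration `t` steps before -/
theorem K_inter (Φ : PCA d S) {r : ℝ} (hr0 : 0 ≤ r) (hr : ∀ n ∈ Φ.nbhd, ‖n‖ ≤ r) (t : ℕ)
    (x : Config d S) {A : Finset (Site d)} {E : Set (Config d S)}
    (hE : DependsOn (fun x => x ∈ E) (A : Set (Site d))) {k : Site d} {R : ℝ}
    (hA : ∀ a ∈ A, ‖a - k‖ + 2 * t * r ≤ R) {F : Set (Config d S)}
    (hF : MeasurableSet[outer k R] F) : K Φ t x (E ∩ F) = K Φ t x E * K Φ t x F := by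
  classical
  have hEm : MeasurableSet E := PCA.measurableSet_of_dependsOn hE
  have hdep : ∀ {G : Set (Config d S)} {B : Finset (Site d)},
      DependsOn (fun x => x ∈ G) (B : Set (Site d)) →
      DependsOn (G.indicator (fun _ => (1 : ℝ≥0∞))) (B : Set (Site d)) := by
    intro G B hG x y hxy
    have := hG hxy
    simp only at this
    simp only [Set.indicator, this]
  have hval : ∀ {G : Set (Config d S)} {B : Finset (Site d)},
      DependsOn (fun x => x ∈ G) (B : Set (Site d)) →
      K Φ t x G = Φ.op^[t] (G.indicator (fun _ => (1 : ℝ≥0∞))) x := by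
    intro G B hG
    have h1 := Φ.iterate_dirac x t (hdep hG)
    rw [lintegral_indicator (PCA.measurableSet_of_dependsOn hG), lintegral_const, one_mul,
      Measure.restrict_apply MeasurableSet.univ, Set.univ_inter] at h1
    exact h1
  have hind : IndepSets {E} (fin S k R) (K Φ t x) := by
    rw [IndepSets_iff]
    rintro E' F hE' ⟨B, hB, hFB⟩
    rw [Set.mem_singleton_iff] at hE'
    subst hE'
    have hEF : DependsOn (fun x => x ∈ E' ∩ F) ((A ∪ B : Finset (Site d)) : Set (Site d)) := by
      intro x y hxy
      have h1 := hE (x := x) (y := y) (fun i hi => hxy i (by simp at hi ⊢; exact Or.inl hi))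
      have h2 := hFB (x := x) (y := y) (fun i hi => hxy i (by simp at hi ⊢; exact Or.inr hi))
      simp only at h1 h2
      simp only [Set.mem_inter_iff, h1, h2]
    rw [hval hEF, hval hE, hval hFB]
    have e1 : (E' ∩ F).indicator (fun _ => (1 : ℝ≥0∞)) = fun x =>
        E'.indicator (fun _ => (1 : ℝ≥0∞)) x * F.indicator (fun _ => (1 : ℝ≥0∞)) x := by
      funext y
      by_cases h1 : y ∈ E' <;> by_cases h2 : y ∈ F <;> simp [h1, h2]
    rw [e1, Φ.op_iterate_mul t (hdep hE) (hdep hFB)]
    intro s hs
    apply Mix.cone_disjoint Φ hr0 hr t s hs.le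
    intro a ha b hb
    have h1 := hA a ha
    have h2 := hB b hb
    have e : b - k = (a - k) - (a - b) := by abel
    have h3 : ‖b - k‖ ≤ ‖a - k‖ + ‖a - b‖ := by rw [e]; exact norm_sub_le _ _
    linarith
  have h2 : Indep (MeasurableSpace.generateFrom {E}) (MeasurableSpace.generateFrom (fin S k R))
      (K Φ t x) := by
    apply IndepSets.indep' _ _ (IsPiSystem.singleton E) (fin_pi k R) hind
    · intro s hs
      rw [Set.mem_singleton_iff] at hs
      rw [hs]; exact hEm
    · intro s hs
      exact fin_meas hs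
  rw [Indep_iff] at h2
  exact h2 E F (MeasurableSpace.measurableSet_generateFrom rfl) (outer_le k R F hF)

variable {Φ : PCA d S} {π : Measure (Config d S)}

theorem inv_iterate (h : Φ.evolve π = π) (t : ℕ) : Φ.evolve^[t] π = π := by
  induction t with
  | zero => rfl
  | succ t ih => rw [Function.iterate_succ_apply', ih, h]

theorem pi_apply (h : Φ.evolve π = π) (t : ℕ) {G : Set (Config d S)} (hG : MeasurableSet G) :
    π G = ∫⁻ x, K Φ t x G ∂π := by
  conv_lhs => rw [← inv_iterate h t, evolve_eq_bind]
  exact Measure.bind_apply hG (measurable_K Φ t).aemeasurable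

theorem K_meas (t : ℕ) {G : Set (Config d S)} (hG : MeasurableSet G) :
    Measurable (fun x => (K Φ t x G).toReal) :=
  ((Measure.measurable_coe hG).comp (measurable_K Φ t)).ennreal_toReal

theorem K_le (t : ℕ) (x : Config d S) (G : Set (Config d S)) :
    0 ≤ (K Φ t x G).toReal ∧ (K Φ t x G).toReal ≤ 1 := by
  refine ⟨ENNReal.toReal_nonneg, ?_⟩
  have := ENNReal.toReal_mono ENNReal.one_ne_top (prob_le_one (μ := K Φ t x) (s := G))
  simpa using this

theorem pi_real [IsProbabilityMeasure π] (h : Φ.evolve π = π) (t : ℕ) {G : Set (Config d S)}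
    (hG : MeasurableSet G) : (π G).toReal = ∫ x, (K Φ t x G).toReal ∂π := by
  rw [pi_apply h t hG, integral_toReal]
  · exact ((Measure.measurable_coe hG).comp (measurable_K Φ t)).aemeasurable
  · filter_upwards with x
    exact (prob_le_one (μ := K Φ t x) (s := G)).trans_lt ENNReal.one_lt_top

/-- the basic estimate -/
theorem cov_le [IsProbabilityMeasure π] (h : Φ.evolve π = π) {r : ℝ} (hr0 : 0 ≤ r)
    (hr : ∀ n ∈ Φ.nbhd, ‖n‖ ≤ r) (t : ℕ) {A : Finset (Site d)} {E : Set (Config d S)}
    (hE : DependsOn (fun x => x ∈ E) (A : Set (Site d))) {k : Site d} {R : ℝ}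
    (hA : ∀ a ∈ A, ‖a - k‖ + 2 * t * r ≤ R) {F : Set (Config d S)}
    (hF : MeasurableSet[outer k R] F) :
    |(π (E ∩ F)).toReal - (π E).toReal * (π F).toReal| ≤
      ∫ x, |(K Φ t x E).toReal - (π E).toReal| * (K Φ t x F).toReal ∂π := by
  have hEm : MeasurableSet E := PCA.measurableSet_of_dependsOn hE
  have hFm : MeasurableSet F := outer_le_pi k R F hF
  have hint : ∀ {G : Set (Config d S)}, MeasurableSet G →
      Integrable (fun x => (K Φ t x G).toReal) π := by
    intro G hG
    apply Integrable.of_bound (C := 1) (K_meas t hG).aestronglyMeasurable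
    filter_upwards with x
    rw [Real.norm_eq_abs, abs_of_nonneg (K_le t x G).1]
    exact (K_le t x G).2
  have hint2 : Integrable (fun x => (K Φ t x E).toReal * (K Φ t x F).toReal) π := by
    have hm : Measurable (fun x => (K Φ t x E).toReal * (K Φ t x F).toReal) :=
      (K_meas t hEm).mul (K_meas t hFm)
    apply Integrable.of_bound (C := 1) hm.aestronglyMeasurable
    filter_upwards with x
    have h1 := K_le (Φ := Φ) t x E
    have h2 := K_le (Φ := Φ) t x F
    rw [Real.norm_eq_abs, abs_of_nonneg (mul_nonneg h1.1 h2.1)]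
    exact mul_le_one₀ h1.2 h2.1 h2.2
  have e1 : (π (E ∩ F)).toReal = ∫ x, (K Φ t x E).toReal * (K Φ t x F).toReal ∂π := by
    rw [pi_real h t (hEm.inter hFm)]
    apply integral_congr_ae
    filter_upwards with x
    rw [K_inter Φ hr0 hr t x hE hA hF, ENNReal.toReal_mul]
  have e2 : (π (E ∩ F)).toReal - (π E).toReal * (π F).toReal =
      ∫ x, ((K Φ t x E).toReal - (π E).toReal) * (K Φ t x F).toReal ∂π := by
    rw [e1]
    conv_lhs => rw [pi_real h t hFm]
    rw [← integral_const_mul, ← integral_sub hint2 ((hint hFm).const_mul _)]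
    apply integral_congr_ae
    filter_upwards with x
    ring
  rw [e2]
  refine abs_integral_le_integral_abs.trans (le_of_eq ?_)
  apply integral_congr_ae
  filter_upwards with x
  rw [abs_mul, abs_of_nonneg (K_le t x F).1]

/-! ### Convergence -/

theorem continuous_ind {A : Finset (Site d)} {E : Set (Config d S)}
    (hE : DependsOn (fun x => x ∈ E) (A : Set (Site d))) :
    Continuous (E.indicator (fun _ => (1 : ℝ))) := by
  have h1 : DependsOn (E.indicator (fun _ => (1 : ℝ≥0∞))) (A : Set (Site d)) := by
    intro x y hxy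
    have := hE hxy
    simp only at this
    by_cases hx : x ∈ E
    · have hy : y ∈ E := by rw [← this]; exact hx
      simp [hx, hy]
    · have hy : y ∉ E := by rw [← this]; exact hx
      simp [hx, hy]
  have h2 := ENNReal.continuousOn_toReal.comp_continuous (continuous_of_dependsOn h1) (by
    intro x
    by_cases hx : x ∈ E <;> simp [hx])
  refine h2.congr fun x => ?_
  by_cases hx : x ∈ E <;> simp [hx]

theorem K_tendsto (h : ErgodicWith Φ π) {A : Finset (Site d)} {E : Set (Config d S)}
    (hE : DependsOn (fun x => x ∈ E) (A : Set (Site d))) (x : Config d S) :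
    Tendsto (fun t => (K Φ t x E).toReal) atTop (𝓝 (π E).toReal) := by
  have hEm : MeasurableSet E := PCA.measurableSet_of_dependsOn hE
  have h1 := h.converges (Measure.dirac x) inferInstance _ (continuous_ind hE)
  have e : ∀ ν : Measure (Config d S), ∫ y, E.indicator (fun _ => (1 : ℝ)) y ∂ν = (ν E).toReal := by
    intro ν
    rw [integral_indicator hEm, setIntegral_const, smul_eq_mul, mul_one]
    rfl
  rw [e] at h1
  refine h1.congr fun t => ?_
  rw [e]
  rfl

theorem L1 (h : ErgodicWith Φ π) {A : Finset (Site d)} {E : Set (Config d S)}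
    (hE : DependsOn (fun x => x ∈ E) (A : Set (Site d))) :
    Tendsto (fun t => ∫ x, |(K Φ t x E).toReal - (π E).toReal| ∂π) atTop (𝓝 0) := by
  have := h.prob
  have hEm : MeasurableSet E := PCA.measurableSet_of_dependsOn hE
  have h1 : Tendsto (fun t => ∫ x, |(K Φ t x E).toReal - (π E).toReal| ∂π) atTop
      (𝓝 (∫ _, (0 : ℝ) ∂π)) := by
    apply tendsto_integral_of_dominated_convergence (fun _ => (1 : ℝ))
    · intro t
      exact (((K_meas t hEm).sub_const _).abs).aestronglyMeasurable
    · exact integrable_const _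
    · intro t
      filter_upwards with x
      have h1 := K_le (Φ := Φ) t x E
      have h3 : 0 ≤ (π E).toReal := ENNReal.toReal_nonneg
      have h4 : (π E).toReal ≤ 1 := by
        have := ENNReal.toReal_mono ENNReal.one_ne_top (prob_le_one (μ := π) (s := E))
        simpa using this
      rw [Real.norm_eq_abs, abs_abs, abs_le]
      constructor <;> linarith [h1.1, h1.2]
    · filter_upwards with x
      have := ((K_tendsto h hE x).sub_const (π E).toReal).abs
      simpa using this
  simpa using h1

theorem exists_radius (A : Finset (Site d)) (k : Site d) (c : ℝ) :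
    ∃ R : ℝ, ∀ a ∈ A, ‖a - k‖ + c ≤ R := by
  refine ⟨∑ a ∈ A, ‖a - k‖ + c, fun a ha => ?_⟩
  have := Finset.single_le_sum (f := fun a => ‖a - k‖) (fun _ _ => norm_nonneg _) ha
  linarith

/-- uniform mixing for events determined by finitely many coordinates -/
theorem kmix_fin (h : ErgodicWith Φ π) {A : Finset (Site d)} {E : Set (Config d S)}
    (hE : DependsOn (fun x => x ∈ E) (A : Set (Site d))) (k : Site d) {ε : ℝ} (hε : 0 < ε) :
    ∃ R : ℝ, ∀ F : Set (Config d S), MeasurableSet[outer k R] F →
      |(π (E ∩ F)).toReal - (π E).toReal * (π F).toReal| ≤ ε := by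
  have := h.prob
  have hEm : MeasurableSet E := PCA.measurableSet_of_dependsOn hE
  obtain ⟨r, hr0, hr⟩ := Mix.exists_range Φ
  obtain ⟨t, ht⟩ := ((L1 h hE).eventually_lt_const hε).exists
  obtain ⟨R, hR⟩ := exists_radius A k (2 * t * r)
  refine ⟨R, fun F hF => (cov_le h.invariant hr0 hr t hE hR hF).trans (le_trans ?_ ht.le)⟩
  have hm : Measurable (fun x => |(K Φ t x E).toReal - (π E).toReal|) :=
    ((K_meas t hEm).sub_const _).abs
  have hb : ∀ x, |(K Φ t x E).toReal - (π E).toReal| ≤ 1 := by
    intro x
    have h1 := K_le (Φ := Φ) t x E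
    have h3 : 0 ≤ (π E).toReal := ENNReal.toReal_nonneg
    have h4 : (π E).toReal ≤ 1 := by
      have := ENNReal.toReal_mono ENNReal.one_ne_top (prob_le_one (μ := π) (s := E))
      simpa using this
    rw [abs_le]
    constructor <;> linarith [h1.1, h1.2]
  apply integral_mono_of_nonneg
  · filter_upwards with x
    exact mul_nonneg (abs_nonneg _) (K_le t x F).1
  · apply Integrable.of_bound (C := 1) hm.aestronglyMeasurable
    filter_upwards with x
    rw [Real.norm_eq_abs, abs_abs]
    exact hb x
  · filter_upwards with x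
    exact mul_le_of_le_one_right (abs_nonneg _) (K_le t x F).2

/-- the ring of the events determined by finitely many coordinates -/
def cylR (d : ℕ) (S : Type) : Set (Set (Config d S)) :=
  {E | ∃ A : Finset (Site d), DependsOn (fun x => x ∈ E) (A : Set (Site d))}

omit [Finite S] [TopologicalSpace S] [DiscreteTopology S] [MeasurableSpace S]
  [MeasurableSingletonClass S] in
theorem cylR_ring : IsSetRing (cylR d S) where
  empty_mem := ⟨∅, fun x y _ => by simp⟩
  union_mem := by
    rintro E F ⟨A, hA⟩ ⟨B, hB⟩
    refine ⟨A ∪ B, fun x y hxy => ?_⟩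
    have h1 := hA (x := x) (y := y) (fun i hi => hxy i (by simp at hi ⊢; exact Or.inl hi))
    have h2 := hB (x := x) (y := y) (fun i hi => hxy i (by simp at hi ⊢; exact Or.inr hi))
    simp only at h1 h2
    simp only [Set.mem_union, h1, h2]
  sdiff_mem := by
    rintro E F ⟨A, hA⟩ ⟨B, hB⟩
    refine ⟨A ∪ B, fun x y hxy => ?_⟩
    have h1 := hA (x := x) (y := y) (fun i hi => hxy i (by simp at hi ⊢; exact Or.inl hi))
    have h2 := hB (x := x) (y := y) (fun i hi => hxy i (by simp at hi ⊢; exact Or.inr hi))
    simp only at h1 h2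
    simp only [Set.mem_sdiff, h1, h2]

theorem cylR_gen : (MeasurableSpace.pi : MeasurableSpace (Config d S)) =
    MeasurableSpace.generateFrom (cylR d S) := by
  apply le_antisymm
  · refine iSup_le fun j => ?_
    rintro _ ⟨T, hT, rfl⟩
    apply MeasurableSpace.measurableSet_generateFrom
    refine ⟨{j}, ?_⟩
    intro x y hxy
    have := hxy j (by simp)
    simp only [Set.mem_preimage, this]
  · apply MeasurableSpace.generateFrom_le
    rintro E ⟨A, hA⟩
    exact PCA.measurableSet_of_dependsOn hA

/-- **Uniform mixing (K-property).** -/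
theorem kmix (h : ErgodicWith Φ π) {E : Set (Config d S)} (hE : MeasurableSet E) (k : Site d)
    {ε : ℝ} (hε : 0 < ε) : ∃ R : ℝ, ∀ F : Set (Config d S), MeasurableSet[outer k R] F →
      |(π (E ∩ F)).toReal - (π E).toReal * (π F).toReal| ≤ ε := by
  have := h.prob
  obtain ⟨E', ⟨A, hA⟩, hEE⟩ := exists_measure_symmDiff_lt_of_generateFrom_isSetRing (μ := π)
    cylR_ring ⟨{Set.univ}, by simp, by
      intro s hs
      rw [Set.mem_singleton_iff] at hs
      subst hs
      exact ⟨∅, fun x y _ => by simp⟩, by simp⟩ cylR_gen hE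
    (show (0 : ℝ≥0∞) < ENNReal.ofReal (ε / 4) by
      rw [ENNReal.ofReal_pos]; linarith)
  obtain ⟨R, hR⟩ := kmix_fin h hA k (show 0 < ε / 2 by linarith)
  refine ⟨R, fun F hF => ?_⟩
  have h1 := hR F hF
  have hE'm : MeasurableSet E' := PCA.measurableSet_of_dependsOn hA
  have hFm : MeasurableSet F := outer_le_pi k R F hF
  have hd : (π (symmDiff E' E)).toReal ≤ ε / 4 := by
    have := ENNReal.toReal_mono ENNReal.ofReal_ne_top hEE.le
    rwa [ENNReal.toReal_ofReal (by linarith)] at this
  have key : ∀ G G' : Set (Config d S), MeasurableSet G → MeasurableSet G' →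
      |(π G).toReal - (π G').toReal| ≤ (π (symmDiff G' G)).toReal := by
    intro G G' hG hG'
    have := abs_measureReal_sub_le_measureReal_symmDiff (μ := π) hG.nullMeasurableSet
      hG'.nullMeasurableSet
    rw [symmDiff_comm] at this
    exact this
  have h2 := key E E' hE hE'm
  have h3 := key (E ∩ F) (E' ∩ F) (hE.inter hFm) (hE'm.inter hFm)
  have h4 : (π (symmDiff (E' ∩ F) (E ∩ F))).toReal ≤ (π (symmDiff E' E)).toReal := by
    apply ENNReal.toReal_mono (measure_ne_top _ _)
    apply measure_mono
    intro x hx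
    simp only [Set.mem_symmDiff, Set.mem_inter_iff] at hx ⊢
    tauto
  have hF1 : 0 ≤ (π F).toReal ∧ (π F).toReal ≤ 1 := by
    refine ⟨ENNReal.toReal_nonneg, ?_⟩
    have := ENNReal.toReal_mono ENNReal.one_ne_top (prob_le_one (μ := π) (s := F))
    simpa using this
  have h5 : |(π E').toReal * (π F).toReal - (π E).toReal * (π F).toReal| ≤ ε / 4 := by
    rw [← sub_mul, abs_mul, abs_of_nonneg hF1.1, abs_sub_comm]
    calc |(π E).toReal - (π E').toReal| * (π F).toReal ≤ (ε / 4) * 1 :=
          mul_le_mul (h2.trans hd) hF1.2 hF1.1 (by linarith)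
      _ = ε / 4 := mul_one _
  have e : (π (E ∩ F)).toReal - (π E).toReal * (π F).toReal =
      ((π (E ∩ F)).toReal - (π (E' ∩ F)).toReal) +
      ((π (E' ∩ F)).toReal - (π E').toReal * (π F).toReal) +
      ((π E').toReal * (π F).toReal - (π E).toReal * (π F).toReal) := by ring
  rw [e]
  refine (abs_add_three _ _ _).trans ?_
  linarith

/-- The tail σ-algebra: the events which do not depend on the coordinates in any given ball. -/
@[reducible] def tail : MeasurableSpace (Config d S) := ⨅ R : ℝ, outer 0 R

/-- **The tail is trivial.** -/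
theorem tail_trivial (h : ErgodicWith Φ π) {F : Set (Config d S)} (hF : MeasurableSet[tail] F) :
    π F = 0 ∨ π F = 1 := by
  have := h.prob
  have hFR : ∀ R : ℝ, MeasurableSet[outer 0 R] F := fun R => (iInf_le _ R : tail ≤ outer 0 R) F hF
  have hFm : MeasurableSet F := outer_le_pi 0 0 F (hFR 0)
  have h1 : |(π (F ∩ F)).toReal - (π F).toReal * (π F).toReal| ≤ 0 := by
    apply le_of_forall_pos_le_add
    intro ε hε
    obtain ⟨R, hR⟩ := kmix h hFm 0 hε
    simpa using hR F (hFR R)
  have h2 : (π F).toReal * ((π F).toReal - 1) = 0 := by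
    have h3 := abs_eq_zero.1 (le_antisymm h1 (abs_nonneg _))
    rw [Set.inter_self] at h3
    linarith
  rcases mul_eq_zero.1 h2 with h3 | h3
  · left
    rcases (ENNReal.toReal_eq_zero_iff _).1 h3 with h4 | h4
    · exact h4
    · exact absurd h4 (measure_ne_top _ _)
  · right
    have h4 : (π F).toReal = 1 := by linarith
    rw [← ENNReal.ofReal_toReal (measure_ne_top π F), h4, ENNReal.ofReal_one]

end Pool.Agent.W699.PK
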