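import Mathlib
import Pool.Agent.W699.PK.Main

/-!
# Shifts are K-automorphisms for the invariant measure of an ergodic cellular automaton
-/

set_option autoImplicit false
set_option linter.unusedSectionVars false

open MeasureTheory ProbabilityTheory Filter Topology
open scoped ENNReal Pointwise

namespace Pool.Agent.W699.PK

open Pool.Agent.H443R3 Pool.Agent.W34

variable {d : ℕ} {S : Type} [MeasurableSpace S]

/-- The σ-algebra of the coordinates `x_j` with `c ≤ ⟨j, v⟩`. -/
@[reducible] def half (v : Site d) (c : ℤ) : MeasurableSpace (Config d S) :=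
  ⨆ (j : Site d) (_ : c ≤ ∑ i, j i * v i),
    MeasurableSpace.comap (fun x : Config d S => x j) inferInstance

theorem half_le_pi (v : Site d) (c : ℤ) : half (S := S) v c ≤ MeasurableSpace.pi := by
  unfold half
  exact iSup_le fun j => iSup_le fun _ => (measurable_pi_apply j).comap_le

theorem half_anti (v : Site d) {c c' : ℤ} (h : c ≤ c') : half (S := S) v c' ≤ half v c := by
  unfold half
  refine iSup_le fun j => iSup_le fun hj => ?_
  exact le_iSup₂_of_le j (h.trans hj) le_rfl

theorem comap_half (v k : Site d) (c : ℤ) :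
    (half (S := S) v c).comap (shift k) = half v (c + ∑ i, k i * v i) := by
  unfold half
  simp only [MeasurableSpace.comap_iSup, MeasurableSpace.comap_comp]
  apply le_antisymm
  · refine iSup_le fun j => iSup_le fun hj => ?_
    refine le_iSup₂_of_le (j + k) ?_ le_rfl
    have : ∑ i, (j + k) i * v i = ∑ i, j i * v i + ∑ i, k i * v i := by
      rw [← Finset.sum_add_distrib]
      exact Finset.sum_congr rfl fun i _ => by rw [Pi.add_apply]; ring
    rw [this]
    linarith
  · refine iSup_le fun j => iSup_le fun hj => ?_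
    refine le_iSup₂_of_le (j - k) ?_ ?_
    · have : ∑ i, (j - k) i * v i = ∑ i, j i * v i - ∑ i, k i * v i := by
        rw [← Finset.sum_sub_distrib]
        exact Finset.sum_congr rfl fun i _ => by rw [Pi.sub_apply]; ring
      rw [this]
      linarith
    · apply le_of_eq
      congr 1
      funext x
      simp [shift, Function.comp]

theorem half_le_outer (v : Site d) {c : ℤ} {R : ℝ} (h : R * ∑ i, |(v i : ℝ)| < c) :
    half (S := S) v c ≤ outer 0 R := by
  unfold half outer
  refine iSup_le fun j => iSup_le fun hj => ?_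
  refine le_iSup₂_of_le j ?_ le_rfl
  rw [sub_zero]
  by_contra hcon
  push Not at hcon
  have h1 : ((∑ i, j i * v i : ℤ) : ℝ) ≤ R * ∑ i, |(v i : ℝ)| := by
    push_cast
    rw [Finset.mul_sum]
    apply Finset.sum_le_sum
    intro i _
    have h2 : |(j i : ℝ)| ≤ R := by
      have := (norm_le_pi_norm j i).trans hcon
      rwa [Int.norm_eq_abs] at this
    calc (j i : ℝ) * v i ≤ |(j i : ℝ) * v i| := le_abs_self _
      _ = |(j i : ℝ)| * |(v i : ℝ)| := abs_mul _ _
      _ ≤ R * |(v i : ℝ)| := mul_le_mul_of_nonneg_right h2 (abs_nonneg _)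
  have h3 : (c : ℝ) ≤ ((∑ i, j i * v i : ℤ) : ℝ) := by exact_mod_cast hj
  linarith

/-- `T`, an automorphism of a probability space with inverse `T'`, is a K-automorphism: there is a
σ-algebra `𝒦` with `T⁻¹ 𝒦 ⊆ 𝒦`, the σ-algebras `Tⁿ 𝒦` generate, and the intersection of the
σ-algebras `T⁻ⁿ 𝒦` is trivial. -/
def IsKAut {X : Type} [m : MeasurableSpace X] (μ : Measure X) (T T' : X → X) : Prop :=
  Measurable T ∧ Measurable T' ∧ (∀ x, T (T' x) = x) ∧ (∀ x, T' (T x) = x) ∧ μ.map T = μ ∧
  ∃ 𝒦 : MeasurableSpace X, 𝒦 ≤ m ∧ 𝒦.comap T ≤ 𝒦 ∧ (⨆ n : ℕ, 𝒦.comap (T'^[n])) = m ∧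
    ∀ F : Set X, MeasurableSet[⨅ n : ℕ, 𝒦.comap (T^[n])] F → μ F = 0 ∨ μ F = 1

theorem shift_iterate (v : Site d) (n : ℕ) : (shift (S := S) v)^[n] = shift (n • v) := by
  induction n with
  | zero =>
    funext x i
    simp [shift]
  | succ n ih =>
    rw [Function.iterate_succ, ih]
    funext x i
    simp only [Function.comp, shift]
    congr 1
    rw [succ_nsmul]
    abel

variable [Finite S] [TopologicalSpace S] [DiscreteTopology S] [MeasurableSingletonClass S]

theorem kaut {Φ : PCA d S} {π : Measure (Config d S)} (h : ErgodicWith Φ π) (v : Site d)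
    (hv : v ≠ 0) : IsKAut π (shift v) (shift (-v)) := by
  have hq : 1 ≤ ∑ i, v i * v i := by
    obtain ⟨i, hi⟩ : ∃ i, v i ≠ 0 := by
      by_contra hcon
      push Not at hcon
      exact hv (funext hcon)
    have h1 : 1 ≤ v i * v i := by
      have := mul_self_pos.2 hi
      omega
    refine h1.trans (Finset.single_le_sum (f := fun i => v i * v i) (fun i _ => mul_self_nonneg _)
      (Finset.mem_univ i))
  refine ⟨Mix.measurable_shift v, Mix.measurable_shift (-v), ?_, ?_, Mix.shift_invariant h v,
    half v 0, half_le_pi v 0, ?_, ?_, ?_⟩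
  · intro x; funext i; simp [shift]
  · intro x; funext i; simp [shift]
  · rw [comap_half]
    apply half_anti
    linarith
  · apply le_antisymm
    · refine iSup_le fun n => ?_
      rw [shift_iterate, comap_half]
      exact half_le_pi _ _
    · refine iSup_le fun j => ?_
      refine le_iSup_of_le (∑ i, j i * v i).natAbs ?_
      rw [shift_iterate, comap_half]
      refine le_iSup₂_of_le j ?_ le_rfl
      have e : ∑ i, ((∑ i, j i * v i).natAbs • -v) i * v i =
          -(((∑ i, j i * v i).natAbs : ℤ) * ∑ i, v i * v i) := by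
        rw [Finset.mul_sum, ← Finset.sum_neg_distrib]
        refine Finset.sum_congr rfl fun i _ => ?_
        simp only [Pi.smul_apply, Pi.neg_apply, nsmul_eq_mul]
        ring
      rw [e, Int.natCast_natAbs, zero_add]
      have h1 : |∑ i, j i * v i| ≤ |∑ i, j i * v i| * ∑ i, v i * v i :=
        le_mul_of_one_le_right (abs_nonneg _) hq
      have h2 := neg_abs_le (∑ i, j i * v i)
      linarith
  · intro F hF
    apply tail_trivial h
    have hle : (⨅ n : ℕ, (half (S := S) v 0).comap ((shift v)^[n])) ≤ tail := by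
      refine le_iInf fun R => ?_
      obtain ⟨n, hn⟩ := exists_nat_gt (R * ∑ i, |(v i : ℝ)|)
      refine (iInf_le _ n).trans ?_
      rw [shift_iterate, comap_half, zero_add]
      apply half_le_outer
      have e : ∑ i, (n • v) i * v i = (n : ℤ) * ∑ i, v i * v i := by
        rw [Finset.mul_sum]
        refine Finset.sum_congr rfl fun i _ => ?_
        simp only [Pi.smul_apply, nsmul_eq_mul]
        ring
      have h1 : (n : ℤ) ≤ ∑ i, (n • v) i * v i := by
        rw [e]
        exact le_mul_of_one_le_right (Int.natCast_nonneg n) hq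
      have h2 : ((n : ℤ) : ℝ) ≤ ((∑ i, (n • v) i * v i : ℤ) : ℝ) := by exact_mod_cast h1
      have h3 : ((n : ℤ) : ℝ) = (n : ℝ) := by norm_num
      rw [h3] at h2
      linarith
    exact hle F hF

end Pool.Agent.W699.PK
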