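import Mathlib
import Pool.Agent.W699.PK.KA

/-!
# Uniformly ergodic cellular automata: φ-mixing and product estimates
-/

set_option autoImplicit false
set_option linter.unusedSectionVars false

open MeasureTheory ProbabilityTheory Filter Topology
open scoped ENNReal Pointwise

namespace Pool.Agent.W699.PK

open Pool.Agent.H443R3 Pool.Agent.W34

variable {d : ℕ} {S : Type} [Finite S] [TopologicalSpace S] [DiscreteTopology S]
  [MeasurableSpace S] [MeasurableSingletonClass S]

/-- `Φ` is uniformly ergodic with invariant measure `π`. -/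
def UniformlyErgodicWith (Φ : PCA d S) (π : Measure (Config d S)) : Prop :=
  ErgodicWith Φ π ∧ ∀ (A : Finset (Site d)) (u : A → S) (ε : ℝ), 0 < ε → ∃ T : ℕ, ∀ t : ℕ, T ≤ t →
    ∀ μ : Measure (Config d S), IsProbabilityMeasure μ →
      |((Φ.evolve^[t] μ) (cyl A u)).toReal - (π (cyl A u)).toReal| ≤ ε

variable {Φ : PCA d S} {π : Measure (Config d S)}

/-- the φ-mixing coefficient at distance `2 t r` is at most the distance to the limit at time `t` -/
theorem phi_le [IsProbabilityMeasure π] (h : Φ.evolve π = π) {r : ℝ} (hr0 : 0 ≤ r)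
    (hr : ∀ n ∈ Φ.nbhd, ‖n‖ ≤ r) (t : ℕ) {A : Finset (Site d)} {E : Set (Config d S)}
    (hE : DependsOn (fun x => x ∈ E) (A : Set (Site d))) {δ : ℝ}
    (hδ : ∀ x, |(Φ.evolve^[t] (Measure.dirac x) E).toReal - (π E).toReal| ≤ δ) {k : Site d} {R : ℝ}
    (hA : ∀ a ∈ A, ‖a - k‖ + 2 * t * r ≤ R) {F : Set (Config d S)}
    (hF : MeasurableSet[outer k R] F) :
    |(π (E ∩ F)).toReal - (π E).toReal * (π F).toReal| ≤ δ * (π F).toReal := by
  have hFm : MeasurableSet F := outer_le_pi k R F hF
  have hint : Integrable (fun x => (K Φ t x F).toReal) π := by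
    apply Integrable.of_bound (C := 1) (K_meas t hFm).aestronglyMeasurable
    filter_upwards with x
    rw [Real.norm_eq_abs, abs_of_nonneg (K_le t x F).1]
    exact (K_le t x F).2
  refine (cov_le h hr0 hr t hE hA hF).trans ?_
  rw [pi_real h t hFm, ← integral_const_mul]
  apply integral_mono_of_nonneg
  · filter_upwards with x
    exact mul_nonneg (abs_nonneg _) (K_le t x F).1
  · exact hint.const_mul δ
  · filter_upwards with x
    exact mul_le_mul_of_nonneg_right (hδ x) (K_le t x F).1

theorem comap_outer (v : Site d) (R : ℝ) :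
    (outer (S := S) 0 R).comap (shift v) = outer v R := by
  unfold outer
  simp only [MeasurableSpace.comap_iSup, MeasurableSpace.comap_comp]
  apply le_antisymm
  · refine iSup_le fun j => iSup_le fun hj => ?_
    refine le_iSup₂_of_le (j + v) ?_ le_rfl
    simpa using hj
  · refine iSup_le fun j => iSup_le fun hj => ?_
    refine le_iSup₂_of_le (j - v) ?_ ?_
    · simpa using hj
    · apply le_of_eq
      congr 1
      funext x
      simp [shift, Function.comp]

theorem outer_anti (v : Site d) {R R' : ℝ} (h : R ≤ R') : outer (S := S) v R' ≤ outer v R := by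
  unfold outer
  refine iSup_le fun j => iSup_le fun hj => ?_
  exact le_iSup₂_of_le j (lt_of_le_of_lt h hj) le_rfl

/-- the configurations with the pattern `u` at `v + B` -/
def at_ (B : Finset (Site d)) (u : B → S) (v : Site d) : Set (Config d S) :=
  {x | ∀ b : B, x (v + b) = u b}

theorem dep_cyl (A : Finset (Site d)) (u : A → S) :
    DependsOn (fun x => x ∈ cyl A u) (A : Set (Site d)) := by
  intro x y hxy
  apply propext
  constructor
  · intro hx a
    rw [← hxy a a.2]
    exact hx a
  · intro hx a
    rw [hxy a a.2]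
    exact hx a

theorem at_eq (B : Finset (Site d)) (u : B → S) (v : Site d) :
    at_ B u v = shift v ⁻¹' cyl B u := by
  ext x
  constructor
  · intro hx b
    show x (b + v) = u b
    rw [add_comm]
    exact hx b
  · intro hx b
    have : x (b + v) = u b := hx b
    rw [add_comm] at this
    exact this

/-- **φ-mixing**, uniformly in the place of the pattern. -/
theorem phi_mix (h : UniformlyErgodicWith Φ π) (B : Finset (Site d)) (u : B → S) {ε : ℝ}
    (hε : 0 < ε) : ∃ R : ℝ, ∀ (v : Site d) (F : Set (Config d S)), MeasurableSet[outer v R] F →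
      |(π (at_ B u v ∩ F)).toReal - (π (cyl B u)).toReal * (π F).toReal| ≤ ε * (π F).toReal := by
  have := h.1.prob
  obtain ⟨r, hr0, hr⟩ := Mix.exists_range Φ
  obtain ⟨T, hT⟩ := h.2 B u ε hε
  obtain ⟨R, hR⟩ := exists_radius B (0 : Site d) (2 * T * r)
  refine ⟨R, fun v F hF => ?_⟩
  rw [← comap_outer] at hF
  obtain ⟨G, hG, rfl⟩ := hF
  have hGm : MeasurableSet G := outer_le_pi 0 R G hG
  have hCm : MeasurableSet (cyl B u) := PCA.measurableSet_of_dependsOn (dep_cyl B u)
  have inv : ∀ H : Set (Config d S), MeasurableSet H → π (shift v ⁻¹' H) = π H := by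
    intro H hH
    conv_rhs => rw [← Mix.shift_invariant h.1 v]
    rw [Measure.map_apply (Mix.measurable_shift v) hH]
  rw [at_eq, ← Set.preimage_inter, inv _ (hCm.inter hGm), inv _ hGm]
  exact phi_le h.1.invariant hr0 hr T (dep_cyl B u) (fun x => hT T le_rfl _ inferInstance) hR hG

/-- **Product estimates** along separated translates, with a uniform factor for each of them. -/
theorem product (h : UniformlyErgodicWith Φ π) (B : Finset (Site d)) {ε : ℝ} (hε : 0 < ε) :
    ∃ R : ℝ, ∀ (V : Finset (Site d)), (∀ v ∈ V, ∀ w ∈ V, v ≠ w → R < ‖v - w‖) →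
      ∀ u : Site d → B → S,
        ∏ v ∈ V, max 0 ((π (cyl B (u v))).toReal - ε) ≤ (π (⋂ v ∈ V, at_ B (u v) v)).toReal ∧
        (π (⋂ v ∈ V, at_ B (u v) v)).toReal ≤ ∏ v ∈ V, ((π (cyl B (u v))).toReal + ε) := by
  classical
  have := h.1.prob
  choose R hR using fun u : B → S => phi_mix h B u hε
  have := Fintype.ofFinite (B → S)
  obtain ⟨M, hM⟩ := exists_radius B (0 : Site d) 0
  set R0 : ℝ := ∑ u, |R u| with hR0
  refine ⟨R0 + M, fun V => ?_⟩
  induction V using Finset.induction_on with
  | empty =>
    intro _ u
    simp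
  | insert v V hv ih =>
    intro hsep u
    obtain ⟨ih1, ih2⟩ := ih (fun a ha b hb => hsep a (Finset.mem_insert_of_mem ha) b
      (Finset.mem_insert_of_mem hb)) u
    set F : Set (Config d S) := ⋂ w ∈ V, at_ B (u w) w with hF
    have hRle : R (u v) ≤ R0 := (le_abs_self _).trans
      (Finset.single_le_sum (f := fun u => |R u|) (fun _ _ => abs_nonneg _) (Finset.mem_univ (u v)))
    have hFm : MeasurableSet[outer v (R (u v))] F := by
      refine outer_anti v hRle F ?_
      refine Finset.measurableSet_biInter V fun w hw => ?_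
      have e : at_ B (u w) w = ⋂ b : B, (fun x : Config d S => x (w + b)) ⁻¹' {u w b} := by
        ext x
        simp [at_]
      rw [e]
      refine MeasurableSet.iInter fun b => ?_
      have hle : MeasurableSpace.comap (fun x : Config d S => x (w + b)) inferInstance ≤
          outer (S := S) v R0 := by
        unfold outer
        refine le_iSup₂_of_le (w + b) ?_ le_rfl
        have h1 := hsep w (Finset.mem_insert_of_mem hw) v (Finset.mem_insert_self v V)
          (fun e => hv (e ▸ hw))
        have h2 := hM b b.2
        rw [sub_zero, add_zero] at h2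
        have h3 : ‖w - v‖ ≤ ‖w + (b : Site d) - v‖ + ‖(b : Site d)‖ := by
          have : w - v = (w + (b : Site d) - v) - b := by abel
          rw [this]
          exact norm_sub_le _ _
        linarith
      exact hle _ ⟨{u w b}, measurableSet_singleton _, rfl⟩
    have key := hR (u v) v F hFm
    have e : (⋂ w ∈ insert v V, at_ B (u w) w) = at_ B (u v) v ∩ F := by
      rw [Finset.set_biInter_insert]
    rw [e, Finset.prod_insert hv, Finset.prod_insert hv]
    rw [abs_le] at key
    have hF0 : 0 ≤ (π F).toReal := ENNReal.toReal_nonneg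
    have hp0 : 0 ≤ (π (cyl B (u v))).toReal := ENNReal.toReal_nonneg
    constructor
    · refine (mul_le_mul_of_nonneg_left ih1 (le_max_left _ _)).trans ?_
      rcases le_total 0 ((π (cyl B (u v))).toReal - ε) with hc | hc
      · rw [max_eq_right hc]
        linarith [key.1]
      · rw [max_eq_left hc, zero_mul]
        exact ENNReal.toReal_nonneg
    · refine le_trans ?_ (mul_le_mul_of_nonneg_left ih2 (by linarith))
      linarith [key.2]

end Pool.Agent.W699.PK
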